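import Mathlib

/-!
# `BUC + cos(t²) BUC` satisfies `(Δ)` and the Loomis condition

Let `Δ_a f = u_a + cos(t²) v_a` for all `a > 0`. The identity
`Δ_{a+b} f = Δ_a f(· + b) + Δ_b f` and the asymptotic independence of `1`, `cos(t²)`, `sin(t²)` over
uniformly continuous functions give `sin(2bt + b²) v_a(t + b) → 0` for all `b > 0`, hence `v_a → 0`
at infinity and `Δ_a f ∈ BUC`. For `BUC` the two conditions are proved by a Steinhaus argument and
dominated convergence.
-/

set_option autoImplicit false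
set_option linter.unusedSectionVars false

open Filter Set MeasureTheory Real
open scoped Topology

namespace Pool.Agent.Results.MP_ee4cf4_an.CosSquare

/-- The admissible intervals. -/
def Admissible (J : Set ℝ) : Prop := (∃ α, J = Ici α) ∨ (∃ α, J = Ioi α) ∨ J = univ

variable {X : Type*} [NormedAddCommGroup X] [NormedSpace ℝ X]

/-- Bounded uniformly continuous functions on `J` (the values outside `J` play no role). -/
def BUC (J : Set ℝ) (u : ℝ → X) : Prop :=
  UniformContinuousOn u J ∧ ∃ C : ℝ, ∀ t ∈ J, ‖u t‖ ≤ C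

/-- The class `A_cos = BUC + cos(t²) BUC`. -/
def ACos (J : Set ℝ) (f : ℝ → X) : Prop :=
  ∃ u v : ℝ → X, BUC J u ∧ BUC J v ∧ ∀ t ∈ J, f t = u t + cos (t ^ 2) • v t

/-- Bochner integrable on compact subintervals of `J`. -/
def L1loc (J : Set ℝ) (f : ℝ → X) : Prop := ∀ a b : ℝ, Icc a b ⊆ J → IntegrableOn f (Icc a b)

/-- Bounded (everywhere on `J`) and Bochner measurable. -/
def LInf (J : Set ℝ) (f : ℝ → X) : Prop :=
  AEStronglyMeasurable f (volume.restrict J) ∧ ∃ C : ℝ, ∀ t ∈ J, ‖f t‖ ≤ C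

/-- The difference `Δ_a f`. -/
def diff (a : ℝ) (f : ℝ → X) : ℝ → X := fun t => f (t + a) - f t

/-- The mean `M_h f`. -/
noncomputable def mean (h : ℝ) (f : ℝ → X) : ℝ → X := fun t => (1 / h) • ∫ s in t..(t + h), f s

/-- The class `A` satisfies `(Δ)`. -/
def SatDelta (J : Set ℝ) (A : (ℝ → X) → Prop) : Prop :=
  ∀ f : ℝ → X, L1loc J f → (∀ a > 0, A (diff a f)) → ∀ h > 0, A (fun t => f t - mean h f t)

/-- The class `A` satisfies the Loomis condition `(L_b)`. -/
def SatLoomis (J : Set ℝ) (A : (ℝ → X) → Prop) : Prop :=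
  ∀ f : ℝ → X, LInf J f → (∀ a > 0, A (diff a f)) → A f

/-! ### Asymptotic independence -/

theorem sqrt_sub_le {t θ : ℝ} (ht : 0 < t) (hθ : 0 ≤ θ) :
    t ≤ √(t ^ 2 + θ) ∧ √(t ^ 2 + θ) ≤ t + θ / t := by
  constructor
  · exact Real.le_sqrt_of_sq_le (by linarith)
  · rw [Real.sqrt_le_left (by positivity)]
    have h1 : (t + θ / t) ^ 2 = t ^ 2 + 2 * θ + (θ / t) ^ 2 := by
      field_simp
      ring
    rw [h1]
    have := sq_nonneg (θ / t)
    linarith

theorem tendsto_shift {f : ℝ → X} {T : ℝ} (hf : UniformContinuousOn f (Ici T)) {θ : ℝ}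
    (hθ : 0 ≤ θ) : Tendsto (fun t => ‖f (√(t ^ 2 + θ)) - f t‖) atTop (𝓝 0) := by
  rw [Metric.tendsto_atTop]
  intro ε hε
  obtain ⟨δ, hδ, h⟩ := Metric.uniformContinuousOn_iff.mp hf ε hε
  refine ⟨max (max T 1) (θ / δ + 1), fun t ht => ?_⟩
  have h1 : T ≤ t := (le_max_left _ _).trans ((le_max_left _ _).trans ht)
  have h2 : 1 ≤ t := (le_max_right _ _).trans ((le_max_left _ _).trans ht)
  have h3 : θ / δ + 1 ≤ t := (le_max_right _ _).trans ht
  obtain ⟨h4, h5⟩ := sqrt_sub_le (t := t) (θ := θ) (by linarith) hθ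
  have h6 : θ / t < δ := by
    rw [div_lt_iff₀ (by linarith)]
    have : θ / δ < t := by linarith
    rwa [div_lt_iff₀ hδ, mul_comm] at this
  have h7 := h (√(t ^ 2 + θ)) (mem_Ici.mpr (h1.trans h4)) t (mem_Ici.mpr h1) (by
    rw [Real.dist_eq, abs_of_nonneg (by linarith)]; linarith)
  rw [dist_eq_norm] at h7
  rw [Real.dist_eq, sub_zero, abs_of_nonneg (norm_nonneg _)]
  exact h7

theorem norm_smul_le' {c : ℝ} (hc : |c| ≤ 1) (x : X) : ‖c • x‖ ≤ ‖x‖ := by
  rw [norm_smul, Real.norm_eq_abs]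
  exact mul_le_of_le_one_left (norm_nonneg _) hc

theorem indep {p q r : ℝ → X} {T : ℝ} (hp : UniformContinuousOn p (Ici T))
    (hq : UniformContinuousOn q (Ici T)) (hr : UniformContinuousOn r (Ici T))
    (h : ∀ t ≥ T, p t + cos (t ^ 2) • q t + sin (t ^ 2) • r t = 0) :
    Tendsto (fun t => ‖r t‖) atTop (𝓝 0) := by
  have hπ := Real.pi_pos
  have hp2 := tendsto_shift hp hπ.le
  have hq2 := tendsto_shift hq hπ.le
  have hr2 := tendsto_shift hr hπ.le
  have hp1 := tendsto_shift hp (half_pos hπ).le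
  have hq1 := tendsto_shift hq (half_pos hπ).le
  have hr1 := tendsto_shift hr (half_pos hπ).le
  have hlim := ((((hp2.add hq2).add hr2).add hp1).add hq1).add hr1
  simp only [add_zero] at hlim
  refine squeeze_zero' (Eventually.of_forall fun t => norm_nonneg _) ?_ hlim
  filter_upwards [eventually_ge_atTop (max T 1)] with t ht
  have hT : T ≤ t := (le_max_left _ _).trans ht
  have ht1 : 0 < t := lt_of_lt_of_le one_pos ((le_max_right _ _).trans ht)
  have hle1 := (sqrt_sub_le (θ := π / 2) ht1 (half_pos hπ).le).1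
  have hle2 := (sqrt_sub_le (θ := π) ht1 hπ.le).1
  have e0 := h t hT
  have e1 := h (√(t ^ 2 + π / 2)) (hT.trans hle1)
  have e2 := h (√(t ^ 2 + π)) (hT.trans hle2)
  rw [Real.sq_sqrt (by positivity), Real.cos_add_pi_div_two, Real.sin_add_pi_div_two] at e1
  rw [Real.sq_sqrt (by positivity), Real.cos_add_pi, Real.sin_add_pi] at e2
  set c := cos (t ^ 2) with hc
  set s := sin (t ^ 2) with hs
  set t1 := √(t ^ 2 + π / 2)
  set t2 := √(t ^ 2 + π)
  have hc1 : |c| ≤ 1 := Real.abs_cos_le_one _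
  have hs1 : |s| ≤ 1 := Real.abs_sin_le_one _
  have hcs : c * c + s * s = 1 := by
    have := Real.cos_sq_add_sin_sq (t ^ 2)
    rw [← hc, ← hs] at this
    linarith
  have i1 : (2 : ℝ) • p t = -(p t2 - p t) + c • (q t2 - q t) + s • (r t2 - r t) := by
    have h3 : p t + c • q t + s • r t + (p t2 + -c • q t2 + -s • r t2) = 0 := by
      rw [e0, e2, add_zero]
    have h4 : (2 : ℝ) • p t - (-(p t2 - p t) + c • (q t2 - q t) + s • (r t2 - r t)) =
        p t + c • q t + s • r t + (p t2 + -c • q t2 + -s • r t2) := by module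
    rw [← sub_eq_zero, h4, h3]
  have i2 : 2 * ‖p t‖ ≤ ‖p t2 - p t‖ + ‖q t2 - q t‖ + ‖r t2 - r t‖ := by
    have h3 : ‖(2 : ℝ) • p t‖ = 2 * ‖p t‖ := by rw [norm_smul]; norm_num
    rw [← h3, i1]
    refine (norm_add₃_le).trans ?_
    rw [norm_neg]
    gcongr
    · exact norm_smul_le' hc1 _
    · exact norm_smul_le' hs1 _
  have i3 : r t = -(s • p t) - c • p t - c • (p t1 - p t) + c • s • (q t1 - q t) -
      c • c • (r t1 - r t) := by
    have h4 : s • (p t + c • q t + s • r t) + c • (p t1 + -s • q t1 + c • r t1) = 0 := by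
      rw [e0, e1, smul_zero, smul_zero, add_zero]
    have h5 : (c * c + s * s) • r t - (-(s • p t) - c • p t - c • (p t1 - p t) +
        c • s • (q t1 - q t) - c • c • (r t1 - r t)) =
        s • (p t + c • q t + s • r t) + c • (p t1 + -s • q t1 + c • r t1) := by module
    have h6 := h5.trans h4
    rw [hcs, one_smul] at h6
    exact sub_eq_zero.mp h6
  have i4 : ‖r t‖ ≤ ‖p t‖ + ‖p t‖ + ‖p t1 - p t‖ + ‖q t1 - q t‖ + ‖r t1 - r t‖ := by
    have a1 := norm_smul_le' hs1 (p t)
    have a2 := norm_smul_le' hc1 (p t)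
    have a3 := norm_smul_le' hc1 (p t1 - p t)
    have a4 := (norm_smul_le' hc1 (s • (q t1 - q t))).trans (norm_smul_le' hs1 _)
    have a5 := (norm_smul_le' hc1 (c • (r t1 - r t))).trans (norm_smul_le' hc1 _)
    calc ‖r t‖ = _ := congrArg norm i3
      _ ≤ ‖-(s • p t) - c • p t - c • (p t1 - p t) + c • s • (q t1 - q t)‖ +
          ‖c • c • (r t1 - r t)‖ := norm_sub_le _ _
      _ ≤ ‖-(s • p t) - c • p t - c • (p t1 - p t)‖ + ‖c • s • (q t1 - q t)‖ +
          ‖c • c • (r t1 - r t)‖ := by gcongr; exact norm_add_le _ _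
      _ ≤ ‖-(s • p t) - c • p t‖ + ‖c • (p t1 - p t)‖ + ‖c • s • (q t1 - q t)‖ +
          ‖c • c • (r t1 - r t)‖ := by gcongr; exact norm_sub_le _ _
      _ ≤ ‖-(s • p t)‖ + ‖c • p t‖ + ‖c • (p t1 - p t)‖ + ‖c • s • (q t1 - q t)‖ +
          ‖c • c • (r t1 - r t)‖ := by gcongr; exact norm_sub_le _ _
      _ ≤ _ := by rw [norm_neg]; gcongr
  linarith

/-! ### Elementary facts on uniform continuity -/

theorem uc_smul {S : Set ℝ} {φ : ℝ → ℝ} {v : ℝ → X} (hφ : UniformContinuousOn φ S)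
    (hφ1 : ∀ t, |φ t| ≤ 1) (hv : BUC S v) : UniformContinuousOn (fun t => φ t • v t) S := by
  obtain ⟨hv, C, hC⟩ := hv
  rw [Metric.uniformContinuousOn_iff] at hφ hv ⊢
  intro ε hε
  obtain ⟨δ₁, hδ₁, h1⟩ := hφ (ε / (2 * (|C| + 1))) (by positivity)
  obtain ⟨δ₂, hδ₂, h2⟩ := hv (ε / 2) (by positivity)
  refine ⟨min δ₁ δ₂, lt_min hδ₁ hδ₂, fun t ht s hs hts => ?_⟩
  have h3 := h1 t ht s hs (hts.trans_le (min_le_left _ _))
  have h4 := h2 t ht s hs (hts.trans_le (min_le_right _ _))
  rw [dist_eq_norm] at h3 h4 ⊢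
  have e : φ t • v t - φ s • v s = φ s • (v t - v s) + (φ t - φ s) • v t := by module
  rw [e]
  have h5 : ‖v t‖ ≤ |C| + 1 := (hC t ht).trans ((le_abs_self C).trans (by linarith))
  calc ‖φ s • (v t - v s) + (φ t - φ s) • v t‖
      ≤ ‖φ s • (v t - v s)‖ + ‖(φ t - φ s) • v t‖ := norm_add_le _ _
    _ ≤ ‖v t - v s‖ + ‖φ t - φ s‖ * (|C| + 1) := by
        gcongr
        · exact norm_smul_le' (hφ1 s) _
        · rw [norm_smul]; gcongr
    _ < ε / 2 + ε / (2 * (|C| + 1)) * (|C| + 1) := by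
        gcongr
    _ = ε := by field_simp; norm_num

theorem uc_sub {S : Set ℝ} {u v : ℝ → X} (hu : UniformContinuousOn u S)
    (hv : UniformContinuousOn v S) : UniformContinuousOn (fun t => u t - v t) S := by
  rw [Metric.uniformContinuousOn_iff] at hu hv ⊢
  intro ε hε
  obtain ⟨δ₁, hδ₁, h1⟩ := hu (ε / 2) (by positivity)
  obtain ⟨δ₂, hδ₂, h2⟩ := hv (ε / 2) (by positivity)
  refine ⟨min δ₁ δ₂, lt_min hδ₁ hδ₂, fun t ht s hs hts => ?_⟩
  have h3 := h1 t ht s hs (hts.trans_le (min_le_left _ _))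
  have h4 := h2 t ht s hs (hts.trans_le (min_le_right _ _))
  rw [dist_eq_norm] at h3 h4 ⊢
  have e : u t - v t - (u s - v s) = (u t - u s) - (v t - v s) := by abel
  rw [e]
  exact (norm_sub_le _ _).trans_lt (by linarith)

theorem uc_neg {S : Set ℝ} {u : ℝ → X} (hu : UniformContinuousOn u S) :
    UniformContinuousOn (fun t => -u t) S := by
  rw [Metric.uniformContinuousOn_iff] at hu ⊢
  intro ε hε
  obtain ⟨δ₁, hδ₁, h1⟩ := hu ε hε
  refine ⟨δ₁, hδ₁, fun t ht s hs hts => ?_⟩
  rw [dist_neg_neg]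
  exact h1 t ht s hs hts

theorem uc_add {S : Set ℝ} {u v : ℝ → X} (hu : UniformContinuousOn u S)
    (hv : UniformContinuousOn v S) : UniformContinuousOn (fun t => u t + v t) S := by
  rw [Metric.uniformContinuousOn_iff] at hu hv ⊢
  intro ε hε
  obtain ⟨δ₁, hδ₁, h1⟩ := hu (ε / 2) (by positivity)
  obtain ⟨δ₂, hδ₂, h2⟩ := hv (ε / 2) (by positivity)
  refine ⟨min δ₁ δ₂, lt_min hδ₁ hδ₂, fun t ht s hs hts => ?_⟩
  have h3 := h1 t ht s hs (hts.trans_le (min_le_left _ _))
  have h4 := h2 t ht s hs (hts.trans_le (min_le_right _ _))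
  rw [dist_eq_norm] at h3 h4 ⊢
  have e : u t + v t - (u s + v s) = (u t - u s) + (v t - v s) := by abel
  rw [e]
  exact (norm_add_le _ _).trans_lt (by linarith)

theorem BUC.shift {J : Set ℝ} (hJ : ∀ t ∈ J, ∀ s : ℝ, 0 ≤ s → t + s ∈ J) {v : ℝ → X}
    (hv : BUC J v) {b : ℝ} (hb : 0 ≤ b) : BUC J (fun t => v (t + b)) := by
  obtain ⟨hv, C, hC⟩ := hv
  refine ⟨?_, C, fun t ht => hC _ (hJ t ht b hb)⟩
  rw [Metric.uniformContinuousOn_iff] at hv ⊢
  intro ε hε
  obtain ⟨δ, hδ, h⟩ := hv ε hε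
  refine ⟨δ, hδ, fun t ht s hs hts => h _ (hJ t ht b hb) _ (hJ s hs b hb) ?_⟩
  rw [Real.dist_eq] at hts ⊢
  rwa [add_sub_add_right_eq_sub]

theorem uc_cos_lin (b c : ℝ) (S : Set ℝ) : UniformContinuousOn (fun t => cos (b * t + c)) S := by
  have h1 : UniformContinuous fun t : ℝ => b * t + c := by
    have : LipschitzWith ⟨|b|, abs_nonneg b⟩ fun t : ℝ => b * t + c :=
      LipschitzWith.of_dist_le_mul fun x y => by
        rw [Real.dist_eq, Real.dist_eq, add_sub_add_right_eq_sub, ← mul_sub, abs_mul]; rfl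
    exact this.uniformContinuous
  exact (Real.lipschitzWith_cos.uniformContinuous.comp h1).uniformContinuousOn

theorem uc_sin_lin (b c : ℝ) (S : Set ℝ) : UniformContinuousOn (fun t => sin (b * t + c)) S := by
  have h1 : UniformContinuous fun t : ℝ => b * t + c := by
    have : LipschitzWith ⟨|b|, abs_nonneg b⟩ fun t : ℝ => b * t + c :=
      LipschitzWith.of_dist_le_mul fun x y => by
        rw [Real.dist_eq, Real.dist_eq, add_sub_add_right_eq_sub, ← mul_sub, abs_mul]; rfl
    exact this.uniformContinuous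
  exact (Real.lipschitzWith_sin.uniformContinuous.comp h1).uniformContinuousOn

/-! ### The coefficients vanish at infinity -/

theorem tail {w : ℝ → X} {T : ℝ} (hw : UniformContinuousOn w (Ici T))
    (H : ∀ b > 0, ∃ c : ℝ, Tendsto (fun s => |sin (2 * b * s + c)| * ‖w s‖) atTop (𝓝 0)) :
    Tendsto (fun s => ‖w s‖) atTop (𝓝 0) := by
  have hπ := Real.pi_pos
  rw [Metric.tendsto_atTop]
  intro ε hε
  obtain ⟨δ, hδ, h⟩ := Metric.uniformContinuousOn_iff.mp hw (ε / 2) (by positivity)
  set b : ℝ := 2 * π / δ with hb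
  have hb0 : 0 < b := by positivity
  obtain ⟨c, hc⟩ := H b hb0
  obtain ⟨N, hN⟩ := Metric.tendsto_atTop.mp hc (ε / 2) (by positivity)
  refine ⟨max T N, fun s hs => ?_⟩
  have hsT : T ≤ s := (le_max_left _ _).trans hs
  have hsN : N ≤ s := (le_max_right _ _).trans hs
  set k : ℤ := ⌈(2 * b * s + c - π / 2) / (2 * π)⌉ with hk
  set s' : ℝ := (π / 2 + k * (2 * π) - c) / (2 * b) with hs'
  have h1 : 2 * b * s' + c = π / 2 + k * (2 * π) := by rw [hs']; field_simp; ring
  have h2 : s ≤ s' := by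
    have h3 : (2 * b * s + c - π / 2) / (2 * π) ≤ k := Int.le_ceil _
    rw [div_le_iff₀ (by positivity)] at h3
    rw [hs', le_div_iff₀ (by positivity)]
    linarith
  have h3 : s' - s < δ := by
    have h4 : (k : ℝ) < (2 * b * s + c - π / 2) / (2 * π) + 1 := Int.ceil_lt_add_one _
    have h5 : (2 * b * s + c - π / 2) / (2 * π) + 1 = (2 * b * s + c - π / 2 + 2 * π) / (2 * π) := by
      field_simp
    rw [h5, lt_div_iff₀ (by positivity)] at h4
    have h6 : 2 * b * (s' - s) < 2 * π := by linarith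
    have h7 : b * δ = 2 * π := by rw [hb]; field_simp
    nlinarith
  have h4 : sin (2 * b * s' + c) = 1 := by
    rw [h1, Real.sin_add_int_mul_two_pi, Real.sin_pi_div_two]
  have h5 := hN s' (hsN.trans h2)
  rw [h4, abs_one, one_mul, Real.dist_eq, sub_zero, abs_of_nonneg (norm_nonneg _)] at h5
  have h6 := h s (mem_Ici.mpr hsT) s' (mem_Ici.mpr (hsT.trans h2)) (by
    rw [Real.dist_eq, abs_sub_comm, abs_of_nonneg (by linarith)]; exact h3)
  rw [dist_eq_norm] at h6
  rw [Real.dist_eq, sub_zero, abs_of_nonneg (norm_nonneg _)]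
  have h7 := norm_sub_norm_le (w s) (w s')
  linarith

theorem uc_cos_sq {J : Set ℝ} {v : ℝ → X} (hv : BUC J v)
    (h0 : ∀ ε > 0, ∃ T : ℝ, ∀ t ∈ J, T ≤ |t| → ‖v t‖ < ε) :
    UniformContinuousOn (fun t => cos (t ^ 2) • v t) J := by
  obtain ⟨hv, C, hC⟩ := hv
  rw [Metric.uniformContinuousOn_iff] at hv ⊢
  intro ε hε
  obtain ⟨T₀, hT₀⟩ := h0 (ε / 4) (by positivity)
  set T := max T₀ 0 with hT
  have hT0 : 0 ≤ T := le_max_right _ _
  obtain ⟨δ, hδ, h⟩ := hv (ε / 2) (by positivity)
  set η : ℝ := ε / (2 * ((|C| + 1) * (2 * T + 1))) with hη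
  have hη0 : 0 < η := by positivity
  refine ⟨min δ (min 1 η), lt_min hδ (lt_min one_pos hη0), fun t ht s hs hts => ?_⟩
  have h1 := h t ht s hs (hts.trans_le (min_le_left _ _))
  have h2 : dist t s < 1 := hts.trans_le ((min_le_right _ _).trans (min_le_left _ _))
  have h3 : dist t s < η := hts.trans_le ((min_le_right _ _).trans (min_le_right _ _))
  rw [dist_eq_norm] at h1 ⊢
  rw [Real.dist_eq] at h2 h3
  have e : cos (t ^ 2) • v t - cos (s ^ 2) • v s =
      cos (s ^ 2) • (v t - v s) + (cos (t ^ 2) - cos (s ^ 2)) • v t := by module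
  rw [e]
  have h4 : ‖(cos (t ^ 2) - cos (s ^ 2)) • v t‖ ≤ ε / 2 := by
    rw [norm_smul, Real.norm_eq_abs]
    by_cases hc : T ≤ |t|
    · have h5 : |cos (t ^ 2) - cos (s ^ 2)| ≤ 2 := by
        have := abs_sub (cos (t ^ 2)) (cos (s ^ 2))
        have := Real.abs_cos_le_one (t ^ 2)
        have := Real.abs_cos_le_one (s ^ 2)
        linarith
      have h6 := hT₀ t ht ((le_max_left _ _).trans hc)
      calc |cos (t ^ 2) - cos (s ^ 2)| * ‖v t‖ ≤ 2 * (ε / 4) := by gcongr
        _ = ε / 2 := by ring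
    · push Not at hc
      have h5 : |cos (t ^ 2) - cos (s ^ 2)| ≤ η * (2 * T + 1) := by
        have h6 := Real.lipschitzWith_cos.dist_le_mul (t ^ 2) (s ^ 2)
        rw [Real.dist_eq, Real.dist_eq, NNReal.coe_one, one_mul] at h6
        have h7 : t ^ 2 - s ^ 2 = (t - s) * (t + s) := by ring
        rw [h7, abs_mul] at h6
        refine h6.trans (mul_le_mul h3.le ?_ (abs_nonneg _) hη0.le)
        have h8 : t + s = 2 * t - (t - s) := by ring
        rw [h8]
        have h9 := abs_sub (2 * t) (t - s)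
        rw [abs_mul, abs_two] at h9
        linarith
      have h6 : ‖v t‖ ≤ |C| + 1 := (hC t ht).trans ((le_abs_self C).trans (by linarith))
      calc |cos (t ^ 2) - cos (s ^ 2)| * ‖v t‖ ≤ η * (2 * T + 1) * (|C| + 1) := by gcongr
        _ = ε / 2 := by rw [hη]; field_simp
  calc ‖cos (s ^ 2) • (v t - v s) + (cos (t ^ 2) - cos (s ^ 2)) • v t‖
      ≤ ‖cos (s ^ 2) • (v t - v s)‖ + ‖(cos (t ^ 2) - cos (s ^ 2)) • v t‖ := norm_add_le _ _
    _ ≤ ‖v t - v s‖ + ε / 2 := by
        gcongr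
        exact norm_smul_le' (Real.abs_cos_le_one _) _
    _ < ε := by linarith

theorem Admissible.add_mem {J : Set ℝ} (hJ : Admissible J) : ∀ t ∈ J, ∀ s : ℝ, 0 ≤ s → t + s ∈ J := by
  intro t ht s hs
  rcases hJ with ⟨α, rfl⟩ | ⟨α, rfl⟩ | rfl
  · exact mem_Ici.mpr (le_add_of_le_of_nonneg ht hs)
  · exact mem_Ioi.mpr (lt_add_of_lt_of_nonneg ht hs)
  · exact mem_univ _

theorem Admissible.exists_Ici {J : Set ℝ} (hJ : Admissible J) : ∃ T, Ici T ⊆ J := by
  rcases hJ with ⟨α, rfl⟩ | ⟨α, rfl⟩ | rfl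
  · exact ⟨α, le_rfl⟩
  · exact ⟨α + 1, fun t ht => by have : α + 1 ≤ t := ht; exact mem_Ioi.mpr (by linarith)⟩
  · exact ⟨0, subset_univ _⟩

/-- Differences in `A_cos` for all translations are in `BUC`. -/
theorem diff_mem {J : Set ℝ} (hJ : Admissible J) {f : ℝ → X}
    (hA : ∀ a > 0, ACos J (diff a f)) : ∀ a > 0, BUC J (diff a f) := by
  have hadd := hJ.add_mem
  choose! u v hu hv huv using hA
  -- the identity
  have hid : ∀ a > 0, ∀ b > 0, ∀ t ∈ J, (u a (t + b) + u b t - u (a + b) t) +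
      cos (t ^ 2) • (cos (2 * b * t + b ^ 2) • v a (t + b) + (v b t - v (a + b) t)) +
      sin (t ^ 2) • (-(sin (2 * b * t + b ^ 2) • v a (t + b))) = 0 := by
    intro a ha b hb t ht
    have h1 := huv a ha (t + b) (hadd t ht b hb.le)
    have h2 := huv b hb t ht
    have h3 := huv (a + b) (by positivity) t ht
    have h4 : diff (a + b) f t = diff a f (t + b) + diff b f t := by
      simp only [diff]
      have : t + (a + b) = t + b + a := by ring
      rw [this]; abel
    rw [h1, h2, h3] at h4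
    have h5 : (t + b) ^ 2 = t ^ 2 + (2 * b * t + b ^ 2) := by ring
    rw [h5, Real.cos_add] at h4
    have h6 := sub_eq_zero.mpr h4
    rw [← neg_eq_zero, ← h6]
    module
  have hucp : ∀ a > 0, ∀ b > 0, UniformContinuousOn
      (fun t => u a (t + b) + u b t - u (a + b) t) J := fun a ha b hb =>
    uc_sub (uc_add ((hu a ha).shift hadd hb.le).1 (hu b hb).1) (hu (a + b) (by positivity)).1
  have hucq : ∀ a > 0, ∀ b > 0, UniformContinuousOn
      (fun t => cos (2 * b * t + b ^ 2) • v a (t + b) + (v b t - v (a + b) t)) J :=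
    fun a ha b hb => uc_add (uc_smul (uc_cos_lin _ _ _) (fun t => Real.abs_cos_le_one _)
      ((hv a ha).shift hadd hb.le)) (uc_sub (hv b hb).1 (hv (a + b) (by positivity)).1)
  have hucr : ∀ a > 0, ∀ b > 0, UniformContinuousOn
      (fun t => -(sin (2 * b * t + b ^ 2) • v a (t + b))) J := fun a ha b hb =>
    uc_neg (uc_smul (uc_sin_lin _ _ _) (fun t => Real.abs_sin_le_one _)
      ((hv a ha).shift hadd hb.le))
  obtain ⟨T, hT⟩ := hJ.exists_Ici
  -- at plus infinity
  have hplus : ∀ a > 0, Tendsto (fun t => ‖v a t‖) atTop (𝓝 0) := by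
    intro a ha
    refine tail ((hv a ha).1.mono hT) fun b hb => ⟨-b ^ 2, ?_⟩
    have h1 := indep ((hucp a ha b hb).mono hT) ((hucq a ha b hb).mono hT)
      ((hucr a ha b hb).mono hT) (fun t ht => hid a ha b hb t (hT ht))
    have h2 := h1.comp (tendsto_atTop_add_const_right atTop (-b) tendsto_id)
    refine h2.congr fun s => ?_
    simp only [Function.comp_apply, id, norm_neg, norm_smul, Real.norm_eq_abs]
    have e1 : 2 * b * (s + -b) + b ^ 2 = 2 * b * s + -b ^ 2 := by ring
    have e2 : s + -b + b = s := by ring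
    rw [e1, e2]
  -- at minus infinity
  have hminus : J = univ → ∀ a > 0, Tendsto (fun t => ‖v a (-t)‖) atTop (𝓝 0) := by
    intro hJu a ha
    have hneg : ∀ {g : ℝ → X}, UniformContinuousOn g J →
        UniformContinuousOn (fun t => g (-t)) (Ici (0 : ℝ)) := by
      intro g hg
      rw [hJu, uniformContinuousOn_univ] at hg
      exact (hg.comp _root_.uniformContinuous_neg).uniformContinuousOn
    refine tail (w := fun t => v a (-t)) (hneg (hv a ha).1) fun b hb => ⟨b ^ 2, ?_⟩
    have h1 := indep (p := fun t => u a (-t + b) + u b (-t) - u (a + b) (-t))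
      (q := fun t => cos (2 * b * (-t) + b ^ 2) • v a (-t + b) + (v b (-t) - v (a + b) (-t)))
      (r := fun t => -(sin (2 * b * (-t) + b ^ 2) • v a (-t + b)))
      (hneg (hucp a ha b hb)) (hneg (hucq a ha b hb)) (hneg (hucr a ha b hb))
      (fun t _ => by
        have h2 := hid a ha b hb (-t) (by rw [hJu]; exact mem_univ _)
        rwa [neg_sq] at h2)
    have h2 := h1.comp (tendsto_atTop_add_const_right atTop b tendsto_id)
    refine h2.congr fun s => ?_
    simp only [Function.comp_apply, id, norm_neg, norm_smul, Real.norm_eq_abs]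
    have e1 : 2 * b * -(s + b) + b ^ 2 = -(2 * b * s + b ^ 2) := by ring
    have e2 : -(s + b) + b = -s := by ring
    rw [e1, e2, Real.sin_neg, abs_neg]
  intro a ha
  have h0 : ∀ ε > 0, ∃ T : ℝ, ∀ t ∈ J, T ≤ |t| → ‖v a t‖ < ε := by
    intro ε hε
    obtain ⟨T₁, hT₁⟩ := Metric.tendsto_atTop.mp (hplus a ha) ε hε
    have hT₁' : ∀ t ≥ T₁, ‖v a t‖ < ε := fun t ht => by
      have := hT₁ t ht
      rwa [Real.dist_eq, sub_zero, abs_of_nonneg (norm_nonneg _)] at this
    have hlow : ∃ T₂ : ℝ, ∀ t ∈ J, t ≤ -T₂ → ‖v a t‖ < ε := by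
      rcases hJ with ⟨α, hα⟩ | ⟨α, hα⟩ | hJu
      · refine ⟨|α| + 1, fun t ht ht2 => ?_⟩
        rw [hα] at ht
        have h1 : α ≤ t := ht
        have := neg_abs_le α
        linarith
      · refine ⟨|α| + 1, fun t ht ht2 => ?_⟩
        rw [hα] at ht
        have h1 : α < t := ht
        have := neg_abs_le α
        linarith
      · obtain ⟨T₂, hT₂⟩ := Metric.tendsto_atTop.mp (hminus hJu a ha) ε hε
        refine ⟨T₂, fun t _ ht2 => ?_⟩
        have := hT₂ (-t) (by linarith)
        rwa [Real.dist_eq, sub_zero, abs_of_nonneg (norm_nonneg _), neg_neg] at this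
    obtain ⟨T₂, hT₂⟩ := hlow
    refine ⟨max T₁ T₂, fun t ht hta => ?_⟩
    rcases abs_cases t with h1 | h1
    · exact hT₁' t (by rw [← h1.1]; exact (le_max_left _ _).trans hta)
    · refine hT₂ t ht ?_
      rw [h1.1] at hta
      have := (le_max_right T₁ T₂).trans hta
      linarith
  obtain ⟨hu1, C₁, hC₁⟩ := hu a ha
  obtain ⟨hv1, C₂, hC₂⟩ := hv a ha
  refine ⟨(uc_add hu1 (uc_cos_sq (hv a ha) h0)).congr fun t ht => (huv a ha t ht).symm,
    C₁ + C₂, fun t ht => ?_⟩
  rw [huv a ha t ht]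
  exact (norm_add_le _ _).trans (add_le_add (hC₁ t ht)
    ((norm_smul_le' (Real.abs_cos_le_one _) _).trans (hC₂ t ht)))

/-! ### The class `BUC` -/

section buc

variable {J : Set ℝ} {f : ℝ → X}

theorem L1loc.intervalIntegrable (hJ : Admissible J) (hf : L1loc J f) {t s : ℝ} (ht : t ∈ J)
    (hts : t ≤ s) : IntervalIntegrable f volume t s := by
  have hsub : Icc t s ⊆ J := fun x hx => by
    have := hJ.add_mem t ht (x - t) (sub_nonneg.mpr hx.1)
    rwa [add_sub_cancel] at this
  rw [intervalIntegrable_iff_integrableOn_Ioc_of_le hts]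
  exact (hf t s hsub).mono_set Ioc_subset_Icc_self

theorem L1loc.shifted (hJ : Admissible J) (hf : L1loc J f) {t h : ℝ} (ht : t ∈ J) (hh : 0 ≤ h) :
    IntervalIntegrable (fun s => f (t + s)) volume 0 h := by
  have h1 := (hf.intervalIntegrable hJ ht (le_add_of_nonneg_right hh)).comp_add_left t
  simpa using h1

/-- The differences are uniformly bounded for small translations. -/
theorem bounded_one (hJ : Admissible J) (hf : L1loc J f) (h : ∀ a > 0, BUC J (diff a f)) :
    ∃ C : ℝ, 0 ≤ C ∧ ∀ s ∈ Icc (0 : ℝ) 1, ∀ t ∈ J, ‖f (t + s) - f t‖ ≤ C := by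
  have hne : Nonempty J := by
    obtain ⟨T, hT⟩ := hJ.exists_Ici
    exact ⟨⟨T, hT (mem_Ici.mpr le_rfl)⟩⟩
  let d : ℕ → J := TopologicalSpace.denseSeq J
  have hd : DenseRange d := TopologicalSpace.denseRange_denseSeq J
  let E : ℕ → Set ℝ := fun n => {s | s ∈ Ioc (0 : ℝ) 2 ∧ ∀ k, ‖f (d k + s) - f (d k)‖ ≤ n}
  have hEall : ∀ n, ∀ s ∈ E n, ∀ t ∈ J, ‖f (t + s) - f t‖ ≤ n := by
    rintro n s ⟨hs, hk⟩ t ht
    have hcont : Continuous fun t : J => ‖diff s f t‖ :=
      (continuousOn_iff_continuous_domRestrict.mp (h s hs.1).1.continuousOn).norm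
    have hcl : IsClosed {t : J | ‖diff s f t‖ ≤ n} := isClosed_le hcont continuous_const
    have huniv : {t : J | ‖diff s f t‖ ≤ n} = univ := by
      refine univ_subset_iff.mp ?_
      rw [← hd.closure_range]
      refine closure_minimal ?_ hcl
      rintro _ ⟨k, rfl⟩
      exact hk k
    have : (⟨t, ht⟩ : J) ∈ {t : J | ‖diff s f t‖ ≤ n} := by rw [huniv]; exact mem_univ _
    exact this
  have hmeas : ∀ n, NullMeasurableSet (E n) volume := by
    intro n
    have h1 : E n = ⋂ k, ({s | ‖f (d k + s) - f (d k)‖ ≤ n} ∩ Ioc (0 : ℝ) 2) := by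
      ext s
      simp only [E, mem_iInter, mem_inter_iff, mem_ofPred_eq]
      exact ⟨fun h k => ⟨h.2 k, h.1⟩, fun h => ⟨(h 0).2, fun k => (h k).1⟩⟩
    rw [h1]
    refine NullMeasurableSet.iInter fun k => ?_
    rw [← nullMeasurableSet_restrict measurableSet_Ioc.nullMeasurableSet]
    have h2 := (hf.shifted hJ (d k).2 (by norm_num : (0 : ℝ) ≤ 2)).aestronglyMeasurable
    have h3 : AEMeasurable (fun s => ‖f (d k + s) - f (d k)‖) (volume.restrict (Ioc 0 2)) :=
      (h2.sub aestronglyMeasurable_const).norm.aemeasurable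
    exact nullMeasurableSet_le h3 aemeasurable_const
  have hmono : Monotone E := fun m n hmn s hs =>
    ⟨hs.1, fun k => (hs.2 k).trans (by exact_mod_cast hmn)⟩
  have hunion : ⋃ n, E n = Ioc (0 : ℝ) 2 := by
    refine Subset.antisymm (iUnion_subset fun n s hs => hs.1) fun s hs => ?_
    obtain ⟨-, C, hC⟩ := h s hs.1
    obtain ⟨n, hn⟩ := exists_nat_ge C
    exact mem_iUnion.mpr ⟨n, hs, fun k => (hC _ (d k).2).trans hn⟩
  have hlim := tendsto_measure_iUnion_atTop (μ := volume) hmono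
  rw [hunion, Real.volume_Ioc] at hlim
  obtain ⟨n, hn⟩ := (hlim.eventually (lt_mem_nhds (show ENNReal.ofReal (3 / 2) <
    ENNReal.ofReal (2 - 0) by rw [ENNReal.ofReal_lt_ofReal_iff (by norm_num)]; norm_num))).exists
  have hn' : ENNReal.ofReal (3 / 2) < volume (E n) := hn
  refine ⟨2 * n, by positivity, fun s hs t ht => ?_⟩
  -- intersection of `E n` with its translate
  obtain ⟨x, hx, hxs⟩ : ∃ x ∈ E n, x - s ∈ E n := by
    by_contra hcon
    push Not at hcon
    have hdisj : Disjoint ((fun x => x + -s) ⁻¹' E n) (E n) := by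
      rw [Set.disjoint_left]
      intro x hx1 hx2
      exact hcon x hx2 (by simpa [sub_eq_add_neg] using hx1)
    have h1 := measure_union₀ (hmeas n) hdisj.aedisjoint
    rw [measure_preimage_add_right] at h1
    have h2 : (fun x => x + -s) ⁻¹' E n ∪ E n ⊆ Ioc 0 3 := by
      rintro x (hx | hx)
      · have h3 := hx.1
        have h4 := hs.1
        have h5 := hs.2
        exact ⟨by linarith [h3.1], by linarith [h3.2]⟩
      · exact ⟨hx.1.1, by linarith [hx.1.2]⟩
    have h3 := measure_mono (μ := volume) h2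
    rw [h1, Real.volume_Ioc] at h3
    have h4 : ENNReal.ofReal (3 / 2) + ENNReal.ofReal (3 / 2) < volume (E n) + volume (E n) :=
      ENNReal.add_lt_add hn' hn'
    rw [← ENNReal.ofReal_add (by norm_num) (by norm_num)] at h4
    have h5 := h4.trans_le h3
    rw [ENNReal.ofReal_lt_ofReal_iff (by norm_num)] at h5
    norm_num at h5
  have h1 := hEall n x hx t ht
  have h2 := hEall n (x - s) hxs (t + s) (hJ.add_mem t ht s hs.1)
  have h3 : t + s + (x - s) = t + x := by ring
  rw [h3] at h2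
  have h4 : f (t + s) - f t = (f (t + x) - f t) - (f (t + x) - f (t + s)) := by abel
  rw [h4]
  refine (norm_sub_le _ _).trans ?_
  linarith

theorem bounded_all (hJ : Admissible J) (hf : L1loc J f) (h : ∀ a > 0, BUC J (diff a f)) (H : ℝ) :
    ∃ C : ℝ, 0 ≤ C ∧ ∀ s ∈ Icc (0 : ℝ) H, ∀ t ∈ J, ‖f (t + s) - f t‖ ≤ C := by
  obtain ⟨C, hC, h1⟩ := bounded_one hJ hf h
  have key : ∀ m : ℕ, ∀ s ∈ Icc (0 : ℝ) m, ∀ t ∈ J, ‖f (t + s) - f t‖ ≤ m * C := by
    intro m
    induction m with
    | zero =>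
      intro s hs t ht
      have : s = 0 := le_antisymm (by simpa using hs.2) hs.1
      rw [this]; simp
    | succ m ih =>
      intro s hs t ht
      by_cases hsm : s ≤ m
      · refine (ih s ⟨hs.1, hsm⟩ t ht).trans ?_
        push_cast
        nlinarith
      · push Not at hsm
        have h2 := ih m ⟨Nat.cast_nonneg m, le_rfl⟩ t ht
        have h3 := h1 (s - m) ⟨by linarith, by have := hs.2; push_cast at this; linarith⟩ (t + m)
          (hJ.add_mem t ht m (Nat.cast_nonneg m))
        have h4 : t + m + (s - m) = t + s := by ring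
        rw [h4] at h3
        have h5 : f (t + s) - f t = (f (t + s) - f (t + m)) + (f (t + m) - f t) := by abel
        rw [h5]
        refine (norm_add_le _ _).trans ?_
        push_cast
        linarith
  obtain ⟨m, hm⟩ := exists_nat_ge H
  exact ⟨m * C, by positivity, fun s hs t ht => key m s ⟨hs.1, hs.2.trans hm⟩ t ht⟩

variable [CompleteSpace X]

/-- The class `BUC` satisfies `(Δ)`. -/
theorem buc_delta (hJ : Admissible J) : SatDelta J (BUC (X := X) J) := by
  intro f hf h H hH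
  obtain ⟨C, hC, hCb⟩ := bounded_all hJ hf h H
  set G : ℝ → X := fun t => ∫ s in (0 : ℝ)..H, (f (t + s) - f t) with hG
  have hgG : ∀ t ∈ J, f t - mean H f t = -((1 / H) • G t) := by
    intro t ht
    have h1 : G t = (∫ s in t..(t + H), f s) - H • f t := by
      rw [hG]
      simp only
      rw [intervalIntegral.integral_sub (hf.shifted hJ ht hH.le) intervalIntegrable_const,
        intervalIntegral.integral_comp_add_left, intervalIntegral.integral_const]
      simp
    rw [h1, mean, smul_sub, smul_smul, one_div_mul_cancel hH.ne', one_smul]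
    abel
  have hint : ∀ t ∈ J, IntervalIntegrable (fun s => f (t + s) - f t) volume 0 H := fun t ht =>
    (hf.shifted hJ ht hH.le).sub intervalIntegrable_const
  refine ⟨?_, C, fun t ht => ?_⟩
  · by_contra hcon
    rw [Metric.uniformContinuousOn_iff] at hcon
    push Not at hcon
    obtain ⟨ε, hε, hcon⟩ := hcon
    choose x hx y hy hxy hfar using fun n : ℕ => hcon (1 / ((n : ℝ) + 1)) (by positivity)
    have hxy0 : Tendsto (fun n => dist (x n) (y n)) atTop (𝓝 0) :=
      squeeze_zero (fun _ => dist_nonneg) (fun n => (hxy n).le)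
        tendsto_one_div_add_atTop_nhds_zero_nat
    have hlim : Tendsto (fun n => ∫ s in (0 : ℝ)..H,
        ((f (x n + s) - f (x n)) - (f (y n + s) - f (y n)))) atTop
        (𝓝 (∫ s in (0 : ℝ)..H, (0 : X))) := by
      refine intervalIntegral.tendsto_integral_filter_of_dominated_convergence
        (fun _ => 2 * C) ?_ ?_ intervalIntegrable_const ?_
      · refine Eventually.of_forall fun n => ?_
        rw [uIoc_of_le hH.le]
        exact ((hint _ (hx n)).sub (hint _ (hy n))).aestronglyMeasurable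
      · refine Eventually.of_forall fun n => Eventually.of_forall fun s hs => ?_
        rw [uIoc_of_le hH.le] at hs
        refine (norm_sub_le _ _).trans ?_
        have h1 := hCb s ⟨hs.1.le, hs.2⟩ (x n) (hx n)
        have h2 := hCb s ⟨hs.1.le, hs.2⟩ (y n) (hy n)
        linarith
      · refine Eventually.of_forall fun s hs => ?_
        rw [uIoc_of_le hH.le] at hs
        have huc := Metric.uniformContinuousOn_iff.mp (h s hs.1).1
        rw [Metric.tendsto_atTop]
        intro η hη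
        obtain ⟨δ, hδ, h1⟩ := huc η hη
        obtain ⟨N, hN⟩ := Metric.tendsto_atTop.mp hxy0 δ hδ
        refine ⟨N, fun n hn => ?_⟩
        have h2 := hN n hn
        rw [Real.dist_eq, sub_zero, abs_of_nonneg dist_nonneg] at h2
        have h3 := h1 (x n) (hx n) (y n) (hy n) h2
        rw [dist_zero_right]
        rw [dist_eq_norm] at h3
        exact h3
    rw [intervalIntegral.integral_zero] at hlim
    have hlim2 := ((hlim.const_smul (1 / H)).norm)
    rw [smul_zero, norm_zero] at hlim2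
    obtain ⟨n, hn⟩ := (hlim2.eventually (gt_mem_nhds hε)).exists
    have h1 := hfar n
    rw [dist_eq_norm, hgG _ (hx n), hgG _ (hy n)] at h1
    have h2 : -((1 / H) • G (x n)) - -((1 / H) • G (y n)) = -((1 / H) • (G (x n) - G (y n))) := by
      module
    rw [h2, norm_neg] at h1
    have h3 : G (x n) - G (y n) = ∫ s in (0 : ℝ)..H,
        ((f (x n + s) - f (x n)) - (f (y n + s) - f (y n))) := by
      rw [intervalIntegral.integral_sub (hint _ (hx n)) (hint _ (hy n))]
    rw [h3] at h1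
    exact absurd hn (not_lt.mpr h1)
  · change ‖f t - mean H f t‖ ≤ C
    rw [hgG t ht, norm_neg, norm_smul, Real.norm_of_nonneg (by positivity)]
    have h1 : ‖G t‖ ≤ C * |H - 0| :=
      intervalIntegral.norm_integral_le_of_norm_le_const fun s hs => by
        rw [uIoc_of_le hH.le] at hs
        exact hCb s ⟨hs.1.le, hs.2⟩ t ht
    rw [sub_zero, abs_of_pos hH] at h1
    calc 1 / H * ‖G t‖ ≤ 1 / H * (C * H) := by gcongr
      _ = C := by field_simp

theorem BUC.aCos {u : ℝ → X} (hu : BUC J u) : ACos J u := by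
  refine ⟨u, fun _ => 0, hu, ⟨?_, 0, fun _ _ => by simp⟩, fun t _ => by simp⟩
  exact uniformContinuous_const.uniformContinuousOn

theorem LInf.l1loc (hf : LInf J f) : L1loc J f := by
  obtain ⟨hm, C, hC⟩ := hf
  intro a b hab
  refine Integrable.mono' (g := fun _ => C) (integrable_const C)
    (hm.mono_measure (Measure.restrict_mono hab le_rfl)) ?_
  refine (ae_restrict_iff' measurableSet_Icc).mpr (Eventually.of_forall fun t ht => ?_)
  exact hC t (hab ht)

/-- The class `BUC` satisfies `(L_b)`. -/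
theorem buc_loomis (hJ : Admissible J) : SatLoomis J (BUC (X := X) J) := by
  intro f hf h
  have hL := hf.l1loc
  obtain ⟨hg, C₁, hC₁⟩ := buc_delta hJ f hL h 1 one_pos
  obtain ⟨-, C, hC⟩ := hf
  have hC0 : 0 ≤ C := by
    obtain ⟨T, hT⟩ := hJ.exists_Ici
    exact (norm_nonneg _).trans (hC T (hT (mem_Ici.mpr le_rfl)))
  have hlip : ∀ t ∈ J, ∀ t' ∈ J, t ≤ t' → ‖mean 1 f t' - mean 1 f t‖ ≤ 2 * C * (t' - t) := by
    intro t ht t' ht' htt
    have ii : ∀ {a b : ℝ}, a ∈ J → a ≤ b → IntervalIntegrable f volume a b :=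
      fun ha hab => hL.intervalIntegrable hJ ha hab
    have h1 : ∀ a ∈ J, ∀ b, a ≤ b → ‖∫ s in a..b, f s‖ ≤ C * (b - a) := by
      intro a ha b hab
      have := intervalIntegral.norm_integral_le_of_norm_le_const (a := a) (b := b) (f := f)
        (C := C) fun s hs => by
          rw [uIoc_of_le hab] at hs
          refine hC s ?_
          have := hJ.add_mem a ha (s - a) (sub_nonneg.mpr hs.1.le)
          rwa [add_sub_cancel] at this
      rwa [abs_of_nonneg (sub_nonneg.mpr hab)] at this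
    have ht1 := hJ.add_mem t ht 1 zero_le_one
    have h2 : (∫ s in t'..(t' + 1), f s) - ∫ s in t..(t + 1), f s =
        (∫ s in (t + 1)..(t' + 1), f s) - ∫ s in t..t', f s := by
      have e1 := intervalIntegral.integral_add_adjacent_intervals
        (ii ht htt) (ii ht' (le_add_of_nonneg_right zero_le_one))
      have e2 := intervalIntegral.integral_add_adjacent_intervals
        (ii ht (le_add_of_nonneg_right zero_le_one)) (ii ht1 (by linarith : t + 1 ≤ t' + 1))
      rw [← e1] at e2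
      rw [sub_eq_sub_iff_add_eq_add, add_comm, e2.symm]
      abel
    simp only [mean, div_one, one_smul]
    rw [h2]
    refine (norm_sub_le _ _).trans ?_
    have h3 := h1 (t + 1) ht1 (t' + 1) (by linarith)
    have h4 := h1 t ht t' htt
    linarith
  have hM : UniformContinuousOn (mean 1 f) J := by
    rw [Metric.uniformContinuousOn_iff]
    intro ε hε
    refine ⟨ε / (2 * C + 1), by positivity, fun t ht s hs hts => ?_⟩
    have h1 : ‖mean 1 f t - mean 1 f s‖ ≤ 2 * C * |t - s| := by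
      rcases le_total s t with hst | hst
      · rw [abs_of_nonneg (sub_nonneg.mpr hst)]
        exact hlip s hs t ht hst
      · rw [abs_sub_comm, abs_of_nonneg (sub_nonneg.mpr hst), norm_sub_rev]
        exact hlip t ht s hs hst
    rw [dist_eq_norm]
    rw [Real.dist_eq, lt_div_iff₀ (by positivity)] at hts
    have := abs_nonneg (t - s)
    nlinarith
  refine ⟨(uc_add hg hM).congr fun t _ => by simp, C, hC⟩

end buc

/-- **Result.** For every admissible interval `J` and every Banach space `X` the class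
`A_cos = BUC(J, X) + cos(t²) BUC(J, X)` satisfies `(Δ)` and `(L_b)`. -/
theorem result (J : Set ℝ) (hJ : Admissible J) (X : Type*) [NormedAddCommGroup X]
    [NormedSpace ℝ X] [CompleteSpace X] :
    SatDelta J (ACos (X := X) J) ∧ SatLoomis J (ACos (X := X) J) :=
  ⟨fun f hf h H hH => (buc_delta hJ f hf (diff_mem hJ h) H hH).aCos,
    fun f hf h => (buc_loomis hJ f hf (diff_mem hJ h)).aCos⟩

end Pool.Agent.Results.MP_ee4cf4_an.CosSquare
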